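import Pool.Agent.Helper13SM.Semi

/-!
Semigroups of commuting dominant rational self-maps which preserve the class of a nef divisor: a
bound for the numerical dimension of the divisor by the growth rank, and strong abundance.
-/

set_option autoImplicit false

open FF Pool.Agent.W602.GT Pool.Agent.Y172 Pool.Agent.R887 Pool.Agent.N110 Pool.Agent.N110.DV

/-- Let `X'` be a normal projective variety of dimension `n ≥ 1` with generic point `y'` (a Calabi-Yau
manifold, for instance), and `L'` a nef `ℚ`-divisor on `X'`. Let `ℕ ^ r` act on `X'` by dominant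
rational self-maps `f_a` (commuting dominant rational self-maps `f_1, ..., f_r`, invertible or not),
given by the endomorphisms `φ a = f_a^*` of the function field, which contract no prime divisors (on a
Calabi-Yau manifold no dominant rational self-map contracts a prime divisor). Suppose that they
preserve the numerical class of `L'`, or more generally that the divisors `L' - f_a^* L'` are
pseudo-effective for all `a`. Let `s ≥ 1` be at most the growth rank: for `u` in `ℤ ^ r` with positive
part `a` and negative part `b` the degree `D(u)` of the correspondence `f_a ∘ f_b⁻¹` is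
`f_a^* H · (f_b^* H) ^ (n - 1) / deg f_b`, and `D` grows subexponentially only along linear subspaces
of `ℝ ^ r` of codimension at least `s`. For instance `s = r` if `max (D(u), D(-u)) ≥ c exp (δ |u|)`
for some `c, δ > 0`.

Let `X` be any normal projective variety and `L` a `ℚ`-divisor on `X`, and let `X' ⇢ X` be a dominant
generically finite rational map, given by the homomorphism `π` of the function fields, which
contracts no prime divisors, such that `L' - π^* L` is pseudo-effective (for instance `X = X'` and
`L = L'`, or a finite morphism and `L' = π^* L`). The map has nothing to do with the maps `f_a`.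

Then `s ≤ n`, the numerical dimension of `L` is at most `n - s`, and so is the Iitaka dimension. If
the Iitaka dimension is at least `n - s` then the Iitaka dimension and the numerical dimension of `L`
are equal. If `s = n`, `L` is nef and the irregularity of `X` is zero, then `L` is torsion: `m L` is
the divisor of a rational function for some `m ≥ 1`. -/
theorem Pool.Agent.Results.MP_cfacaa_ag.CommutingSelfMaps.result
    {K K' : Type} [Field K] [Algebra ℂ K] [Field K'] [Algebra ℂ K'] {N N' n : ℕ}
    {y : Fin (N + 1) → K} {y' : Fin (N' + 1) → K'} (hy : NormalModel y) (hy' : NormalModel y')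
    (hn : Algebra.trdeg ℂ K = n) (hn' : Algebra.trdeg ℂ K' = n) (hn0 : 0 < n)
    {L' : Place ℂ K' → ℚ} (hL' : {P | IsPrimeDivisor y' P ∧ L' P ≠ 0}.Finite)
    (hnef' : NefD y' n L') {r s : ℕ} (hs : 0 < s) {φ : (Fin r → ℕ) → (K' →ₐ[ℂ] K')}
    (hφ : ∀ a b, φ (a + b) = φ a * φ b) (hcl : ∀ a, SelfClassLe (φ a) y' L')
    (hrank : SE.CorrRankGe φ y' n s ∨ (s = r ∧ SE.CorrExpGrowth φ y' n))
    {L : Place ℂ K → ℚ} (hL : {P | IsPrimeDivisor y P ∧ L P ≠ 0}.Finite) {π : K →ₐ[ℂ] K'}
    (hπ : ImgClassLe π y L y' L') :
    s ≤ n ∧ NuLt y n L (n - s + 1) ∧ ¬ IitakaGe y L (n - s + 1) ∧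
      (IitakaGe y L (n - s) → AbundantD y n L) ∧
      (s = n → NefD y n L → IrregularityZero y → ∃ m : ℕ, 1 ≤ m ∧ ∃ g : K, g ≠ 0 ∧
        ∀ P, IsPrimeDivisor y P → (P.ord g : ℚ) = m * L P) := by
  have hrank' : SE.CorrRankGe φ y' n s := by
    rcases hrank with h | ⟨rfl, h⟩
    · exact h
    · exact SE.corrRank_of_exp h
  obtain ⟨h1, h2⟩ := Pool.Agent.Helper13SM.semi_mainD hy' hn' hn0 hL' hnef' hs hφ hcl hrank'
  have h3 : NuLt y n L (n - s + 1) := nuLt_img hy hy' hn hn' hπ (by omega) h2
  refine ⟨h1, h3, iitaka_lt hy hn (by omega) h3, fun h => ⟨n - s, h, h3⟩, fun h4 hnef hq => ?_⟩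
  rw [show n - s + 1 = 1 by omega] at h3
  obtain ⟨m, hm, g, hg0, hg⟩ := trivialD hy hn hn0 hL hq hnef h3
  refine ⟨m, hm, g⁻¹, inv_ne_zero hg0, fun P hP => ?_⟩
  have h5 := hg P hP
  rw [P.ord_inv]
  push_cast
  linarith
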