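import Pool.Agent.Helper13IR.Abund

/-!
Groups of divisor classes on which an abelian group of automorphisms acts irreducibly: one abundant
or semiample class suffices.
-/

set_option autoImplicit false

open FF Pool.Agent.W602.GT Pool.Agent.Y172 Pool.Agent.R887 Pool.Agent.N110 Pool.Agent.N110.NV
open Pool.Agent.N110.CC Pool.Agent.N110.DV Pool.Agent.Helper13IR

/-- Let `X` be a normal projective variety of dimension `n ≥ 1` with generic point `y` (a Calabi-Yau
manifold, for instance), and let the vectors `c P` be the classes of the prime divisors in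
`N¹(X) = ℤ ^ ρ`. Let `ℤ ^ r`, `r ≥ 1`, act on `X` by birational maps `f_v`, isomorphisms in
codimension one (on a Calabi-Yau manifold every birational self-map is one), given by the
automorphisms `φ v = f_v^*` of the function field. Let `Λ` be a subgroup of rank `r + 1` of `N¹(X)`,
generated by the linearly independent classes `s j`, which is preserved by the pull backs `f_v^*`, and
suppose that the action on `Λ` is irreducible over `ℚ` and faithful. Nothing is assumed on the rest of
`N¹(X)`, and `Λ` need not contain big classes. (If `ℤ ^ r'` acts irreducibly on `Λ` and the image in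
`GL(Λ)` has rank `r`, the greatest possible value, then some subgroup `ℤ ^ r` acts irreducibly and
faithfully.)

Let `L₀` and `L` be `ℚ`-divisors on `X` with classes in `Λ ⊗ ℚ` which are not numerically trivial,
and let `L` be pseudo-effective, for instance nef.

(1) If the irregularity of `X` is zero and `L₀` has Iitaka dimension at least `0`, then `L` and `L₀`
have the same Iitaka dimension and the same numerical dimension. In particular `L` is abundant if
`L₀` is.

(2) If the maps `f_v` are automorphisms of `X` and `L₀` is nef then `L` is nef; if `L₀` is semiample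
then `L` is numerically equivalent to a semiample `ℚ`-divisor, and `L` itself is semiample if the
irregularity of `X` is zero. -/
theorem Pool.Agent.Results.MP_cfacaa_ag.OneClassSuffices.result
    {K : Type} [Field K] [Algebra ℂ K] {N n r ρ : ℕ} {y : Fin (N + 1) → K} (hy : NormalModel y)
    (hn : Algebra.trdeg ℂ K = n) (hn0 : 0 < n) (hr : 0 < r)
    {c : Place ℂ K → Fin ρ → ℤ} (hc : PicardBasis y c)
    {φ : (Fin r → ℤ) → (K ≃ₐ[ℂ] K)} (hφ : ∀ u v, φ (u + v) = φ u * φ v)
    (hps : ∀ v, PseudoAut (φ v) y)
    {s : Fin (r + 1) → Fin ρ → ℤ} (hli : LinearIndependent ℝ (fun j i => (s j i : ℝ)))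
    (hst : ∀ v, PreservesSpan y c s (φ v)) (hirr : IrreducibleOn y c s φ)
    (hfa : FaithfulOn y c s φ) {L₀ L : Place ℂ K → ℚ}
    (hL₀ : {P | IsPrimeDivisor y P ∧ L₀ P ≠ 0}.Finite) (h0 : realClass y c L₀ ≠ 0)
    (hs₀ : ClassIn y c s L₀) (hL : {P | IsPrimeDivisor y P ∧ L P ≠ 0}.Finite)
    (h1 : realClass y c L ≠ 0) (hs : ClassIn y c s L) (hpsef : PsefD y L) :
    (IrregularityZero y → IitakaGe y L₀ 0 →
      (∀ j, (IitakaGe y L j ↔ IitakaGe y L₀ j) ∧ (NuLt y n L j ↔ NuLt y n L₀ j)) ∧
        (AbundantD y n L₀ → AbundantD y n L)) ∧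
    ((∀ v, IsAut (φ v) y) →
      (realClass y c L₀ ∈ nefCone y n c → realClass y c L ∈ nefCone y n c) ∧
      (SemiampleD y n L₀ →
        (∃ L', SemiampleD y n L' ∧ realClass y c L' = realClass y c L) ∧
        (IrregularityZero y → SemiampleD y n L))) := by
  have hne : ∀ L : Place ℂ K → ℚ, realClass y c L ≠ 0 →
      cls y (Pool.Agent.N492.PA.cQ c) L ≠ 0 := by
    intro L h h2
    apply h
    funext i
    show ((cls y (Pool.Agent.N492.PA.cQ c) L i : ℚ) : ℝ) = 0
    rw [h2]
    simp
  refine ⟨fun hq hI => ?_, fun haut => ⟨fun h => ?_, fun h => ?_⟩⟩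
  · have h2 := fun j => abund (n := n) hy hr hc hφ hps hli hst hirr hfa hq hL₀ (hne _ h0) hs₀ hI hL
      (hne _ h1) hs hpsef j
    refine ⟨h2, ?_⟩
    rintro ⟨k, h3, h4⟩
    exact ⟨k, (h2 k).1.2 h3, (h2 (k + 1)).2.2 h4⟩
  · exact nef hy hn hn0 hr hc hφ haut hli hst hirr hfa (hne _ h0) hs₀ h hL hs hpsef
  · obtain ⟨⟨L', hL', h2⟩, h3⟩ := semiample hy hn hn0 hr hc hφ haut hli hst hirr hfa (hne _ h0) hs₀ h
      hL hs hpsef
    refine ⟨⟨L', hL', ?_⟩, h3⟩
    funext i
    exact congrArg (fun v => ((v i : ℚ) : ℝ)) h2
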