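import Pool.Agent.N110.DV.Im
import Pool.Agent.N110.DV.Main

/-!
Abelian groups of birational self-maps which preserve the class of a nef divisor: a bound for the
rank by the numerical dimension of the divisor, and strong abundance.
-/

set_option autoImplicit false

open FF Pool.Agent.W602.GT Pool.Agent.Y172 Pool.Agent.R887 Pool.Agent.N110 Pool.Agent.N110.DV

/-- Let `X'` be a normal projective variety of dimension `n ≥ 1` with generic point `y'` (a Calabi-Yau
manifold, for instance), and `L'` a `ℚ`-divisor on `X'`. Let `ℤ ^ r` act on `X'` by birational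
self-maps `f_v` which are isomorphisms in codimension one (on a Calabi-Yau manifold every birational
self-map is one), given by the automorphisms `φ v = f_v^*` of the function field, and suppose that
they preserve the numerical class of `L'` (the divisors `L' - f_v^* L'` are pseudo-effective for all
`v`). Let `s ≥ 1` be at most the growth rank of the action: the degrees `f_v^* H · H ^ (n - 1)` grow
subexponentially only along subspaces of `ℝ ^ r` of codimension at least `s`. For instance `s = r ≥ 1`,
if `f_v` has positive entropy (the first dynamical degree is greater than `1`) for all `v ≠ 0`; for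
this the theorem of Néron and Severi for `X'` is used, that the group of the divisors on `X'` modulo
numerical equivalence is finitely generated.

Let `X` be any normal projective variety and `L` a `ℚ`-divisor on `X`, and let `X' ⇢ X` be a dominant
generically finite rational map, given by the homomorphism `π` of the function fields, which
contracts no prime divisors, such that `L' - π^* L` is pseudo-effective (for instance `X = X'` and
`L = L'`, or a finite morphism and `L' = π^* L`). The map has nothing to do with the maps `f_v`.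

Then `s ≤ n - 1`, the numerical dimension of `L` is at most `n - 1 - s`, and so is the Iitaka
dimension. If the Iitaka dimension is at least `n - 1 - s` then the Iitaka dimension and the numerical
dimension of `L` are equal. If `s = n - 1`, `L` is nef and the irregularity of `X` is zero, then `L` is
torsion: `m L` is the divisor of a rational function for some `m ≥ 1`. -/
theorem Pool.Agent.Results.MP_cfacaa_ag.PreservedClassRank.result
    {K K' : Type} [Field K] [Algebra ℂ K] [Field K'] [Algebra ℂ K'] {N N' n : ℕ}
    {y : Fin (N + 1) → K} {y' : Fin (N' + 1) → K'} (hy : NormalModel y) (hy' : NormalModel y')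
    (hn : Algebra.trdeg ℂ K = n) (hn' : Algebra.trdeg ℂ K' = n) (hn0 : 0 < n)
    {L' : Place ℂ K' → ℚ} (hL' : {P | IsPrimeDivisor y' P ∧ L' P ≠ 0}.Finite) {r s : ℕ}
    (hs : 0 < s) {φ : (Fin r → ℤ) → (K' ≃ₐ[ℂ] K')} (hφ : ∀ u v, φ (u + v) = φ u * φ v)
    (hiso : ∀ v, PseudoAut (φ v) y') (hcl : ∀ v, ClassLe (φ v) y' L')
    (hrank : GrowthRankGe φ y' n s ∨
      (s = r ∧ NeronSeveri y' ∧ ∀ v, v ≠ 0 → 1 < dynDegree (φ v) y' n 1))
    {L : Place ℂ K → ℚ} (hL : {P | IsPrimeDivisor y P ∧ L P ≠ 0}.Finite) {π : K →ₐ[ℂ] K'}
    (hπ : ImgClassLe π y L y' L') :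
    s < n ∧ NuLt y n L (n - s) ∧ ¬ IitakaGe y L (n - s) ∧
      (IitakaGe y L (n - s - 1) → AbundantD y n L) ∧
      (s + 1 = n → NefD y n L → IrregularityZero y → ∃ m : ℕ, 1 ≤ m ∧ ∃ g : K, g ≠ 0 ∧
        ∀ P, IsPrimeDivisor y P → (P.ord g : ℚ) = m * L P) := by
  have hrank' : GrowthRankGe φ y' n s := by
    rcases hrank with h | ⟨rfl, hN, hent⟩
    · exact h
    · exact RK.growthRank_of_exp (PA.growthN hy' hn' hn0 hN hs hφ hiso hent)
  obtain ⟨h1, h2⟩ := rank_mainD hy' hn' hn0 hL' hs hφ hiso hcl hrank'
  have h3 : NuLt y n L (n - s) := nuLt_img hy hy' hn hn' hπ (Nat.sub_le _ _) h2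
  refine ⟨h1, h3, iitaka_lt hy hn (Nat.sub_le _ _) h3, fun h => ⟨n - s - 1, h, ?_⟩,
    fun h4 hnef hq => ?_⟩
  · rwa [show n - s - 1 + 1 = n - s by omega]
  · rw [show n - s = 1 by omega] at h3
    obtain ⟨m, hm, g, hg0, hg⟩ := trivialD hy hn hn0 hL hq hnef h3
    refine ⟨m, hm, g⁻¹, inv_ne_zero hg0, fun P hP => ?_⟩
    have h5 := hg P hP
    rw [P.ord_inv]
    push_cast
    linarith
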